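import Mathlib

/-!
# MP_106bf9_an: distinct zeros of a polynomial and several of its derivatives

For a complex polynomial `P` and a finite set `R` of orders, `numZeros P R` is the number of
distinct zeros of `P` and of the derivatives `P^(r)`, `r ∈ R`, together.

For every `m ≥ 2` and every `b ≥ 2` the polynomial `P = (X^m - 1)^b`, of degree `n = m b`, with the
`m` orders `1, n - m + 1, n - m + 2, …, n - 1`, has `numZeros = m + 1`.  So the conjectured lower
bound `m + 2` fails for every `m ≥ 2` (for `m = 1` it is known to hold).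
-/

set_option autoImplicit false

open Polynomial

namespace Pool.Agent.Results.MP_106bf9_an.SharpFamily

/-- the number of distinct complex zeros of `P` and its derivatives of the orders in `R` -/
noncomputable def numZeros (P : ℂ[X]) (R : Finset ℕ) : ℕ :=
  Set.ncard {z : ℂ | P.eval z = 0 ∨ ∃ r ∈ R, (derivative^[r] P).eval z = 0}

theorem high_derivative (m b r : ℕ) (hb : 2 ≤ b) (h1 : m * b - m < r) :
    derivative^[r] ((X ^ m - 1 : ℂ[X]) ^ b) = ((m * b).descFactorial r : ℂ[X]) * X ^ (m * b - r) := by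
  have hmb : m ≤ m * b := Nat.le_mul_of_pos_right m (by omega)
  have hdec : ((X ^ m - 1 : ℂ[X]) ^ b) - X ^ (m * b) =
      ∑ j ∈ Finset.range b, (X ^ m) ^ j * (-1 : ℂ[X]) ^ (b - j) * (b.choose j : ℂ[X]) := by
    rw [sub_eq_add_neg (X ^ m : ℂ[X]) 1, add_pow, Finset.sum_range_succ]
    simp [← pow_mul]
  have hdeg : (((X ^ m - 1 : ℂ[X]) ^ b) - X ^ (m * b)).natDegree < r := by
    refine lt_of_le_of_lt ?_ h1
    rw [hdec]
    refine natDegree_sum_le_of_forall_le _ _ fun j hj => ?_
    have hj' : j + 1 ≤ b := Finset.mem_range.1 hj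
    have hc : (X ^ m : ℂ[X]) ^ j * (-1 : ℂ[X]) ^ (b - j) * (b.choose j : ℂ[X]) =
        C ((-1 : ℂ) ^ (b - j) * (b.choose j : ℂ)) * X ^ (m * j) := by
      simp only [map_mul, map_pow, map_neg, map_one, map_natCast, pow_mul]
      ring
    rw [hc]
    refine (natDegree_C_mul_X_pow_le _ _).trans ?_
    have : m * (j + 1) ≤ m * b := Nat.mul_le_mul_left m hj'
    rw [Nat.mul_succ] at this
    omega
  have h3 := iterate_derivative_eq_zero hdeg
  rw [iterate_derivative_sub, sub_eq_zero] at h3
  rw [h3, iterate_derivative_X_pow_eq_natCast_mul]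

theorem zeros_eq (m b : ℕ) (hm : 2 ≤ m) (hb : 2 ≤ b) :
    {z : ℂ | ((X ^ m - 1 : ℂ[X]) ^ b).eval z = 0 ∨
      ∃ r ∈ insert 1 (Finset.Ioo (m * b - m) (m * b)),
        (derivative^[r] ((X ^ m - 1 : ℂ[X]) ^ b)).eval z = 0} =
      insert 0 (↑(nthRootsFinset m (1 : ℂ)) : Set ℂ) := by
  have hm0 : 0 < m := by omega
  ext z
  simp only [Set.mem_ofPred_eq, Set.mem_insert_iff, Finset.mem_coe, mem_nthRootsFinset hm0,
    eval_pow, eval_sub, eval_X, eval_one]
  have hbm : m ≤ m * b := Nat.le_mul_of_pos_right m (by omega)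
  constructor
  · rintro (h | ⟨r, hr, h⟩)
    · right
      have := pow_eq_zero_iff (M₀ := ℂ) (n := b) (by omega) |>.1 h
      exact sub_eq_zero.1 this
    · rcases Finset.mem_insert.1 hr with rfl | hr
      · have h1 : derivative^[1] ((X ^ m - 1 : ℂ[X]) ^ b) =
            (b : ℂ[X]) * (X ^ m - 1) ^ (b - 1) * ((m : ℂ[X]) * X ^ (m - 1)) := by
          simp [derivative_pow]
        rw [h1] at h
        simp only [eval_mul, eval_natCast, eval_pow, eval_sub, eval_X, eval_one, mul_eq_zero,
          Nat.cast_eq_zero] at h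
        rcases h with (h | h) | (h | h)
        · omega
        · right
          exact sub_eq_zero.1 ((pow_eq_zero_iff (by omega)).1 h)
        · omega
        · left
          exact (pow_eq_zero_iff (by omega)).1 h
      · rw [Finset.mem_Ioo] at hr
        rw [high_derivative m b r hb hr.1] at h
        simp only [eval_mul, eval_natCast, eval_pow, eval_X, mul_eq_zero, Nat.cast_eq_zero,
          Nat.descFactorial_eq_zero_iff_lt] at h
        rcases h with h | h
        · omega
        · left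
          exact (pow_eq_zero_iff (by omega)).1 h
  · rintro (rfl | h)
    · right
      refine ⟨1, Finset.mem_insert_self _ _, ?_⟩
      simp [derivative_pow]
      right
      omega
    · left
      rw [h, sub_self, zero_pow (by omega)]

theorem numZeros_family (m b : ℕ) (hm : 2 ≤ m) (hb : 2 ≤ b) :
    numZeros ((X ^ m - 1 : ℂ[X]) ^ b) (insert 1 (Finset.Ioo (m * b - m) (m * b))) = m + 1 := by
  have hm0 : 0 < m := by omega
  unfold numZeros
  rw [zeros_eq m b hm hb, Set.ncard_insert_of_notMem, Set.ncard_coe_finset]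
  · rw [(Complex.isPrimitiveRoot_exp m (by omega)).card_nthRootsFinset]
  · simp only [Finset.mem_coe, mem_nthRootsFinset hm0]
    rw [zero_pow (by omega)]
    exact zero_ne_one

/-- For every `m ≥ 2` and `b ≥ 2`, the polynomial `(X^m - 1)^b` of degree `n = m b` has `m ≥ 2`
distinct zeros, and with the `m` orders `R = {1} ∪ {n - m + 1, …, n - 1} ⊆ {1, …, n - 1}` the number
of distinct zeros of `P` and its derivatives of these orders is exactly `m + 1`.  In particular,
for no `m ≥ 2` does the lower bound `m + 2` hold for all polynomials with at least two distinct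
zeros and all choices of `m` orders. -/
theorem result :
    (∀ m b : ℕ, 2 ≤ m → 2 ≤ b →
      ((X ^ m - 1 : ℂ[X]) ^ b).natDegree = m * b ∧
      {z : ℂ | ((X ^ m - 1 : ℂ[X]) ^ b).eval z = 0}.ncard = m ∧
      (insert 1 (Finset.Ioo (m * b - m) (m * b))).card = m ∧
      (∀ r ∈ insert 1 (Finset.Ioo (m * b - m) (m * b)), 1 ≤ r ∧ r ≤ m * b - 1) ∧
      numZeros ((X ^ m - 1 : ℂ[X]) ^ b) (insert 1 (Finset.Ioo (m * b - m) (m * b))) = m + 1) ∧
    (∀ m : ℕ, 2 ≤ m →
      ¬ ∀ (n : ℕ) (R : Finset ℕ) (P : ℂ[X]), m ≤ n - 1 → R.card = m →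
        (∀ r ∈ R, 1 ≤ r ∧ r ≤ n - 1) → P.natDegree = n →
        2 ≤ {z : ℂ | P.eval z = 0}.ncard → m + 2 ≤ numZeros P R) := by
  have main : ∀ m b : ℕ, 2 ≤ m → 2 ≤ b →
      ((X ^ m - 1 : ℂ[X]) ^ b).natDegree = m * b ∧
      {z : ℂ | ((X ^ m - 1 : ℂ[X]) ^ b).eval z = 0}.ncard = m ∧
      (insert 1 (Finset.Ioo (m * b - m) (m * b))).card = m ∧
      (∀ r ∈ insert 1 (Finset.Ioo (m * b - m) (m * b)), 1 ≤ r ∧ r ≤ m * b - 1) ∧
      numZeros ((X ^ m - 1 : ℂ[X]) ^ b) (insert 1 (Finset.Ioo (m * b - m) (m * b))) = m + 1 := by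
    intro m b hm hb
    have hm0 : 0 < m := by omega
    have h2m : m * 2 ≤ m * b := Nat.mul_le_mul_left m hb
    refine ⟨?_, ?_, ?_, ?_, numZeros_family m b hm hb⟩
    · rw [natDegree_pow, mul_comm]
      congr 1
      exact natDegree_X_pow_sub_C (r := (1 : ℂ))
    · have : {z : ℂ | ((X ^ m - 1 : ℂ[X]) ^ b).eval z = 0} =
          (↑(nthRootsFinset m (1 : ℂ)) : Set ℂ) := by
        ext z
        simp only [Set.mem_ofPred_eq, Finset.mem_coe, mem_nthRootsFinset hm0, eval_pow, eval_sub,
          eval_X, eval_one]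
        rw [pow_eq_zero_iff (by omega), sub_eq_zero]
      rw [this, Set.ncard_coe_finset,
        (Complex.isPrimitiveRoot_exp m (by omega)).card_nthRootsFinset]
    · rw [Finset.card_insert_of_notMem, Nat.card_Ioo]
      · omega
      · rw [Finset.mem_Ioo]
        omega
    · intro r hr
      rcases Finset.mem_insert.1 hr with rfl | hr
      · omega
      · rw [Finset.mem_Ioo] at hr
        omega
  refine ⟨main, fun m hm hcon => ?_⟩
  obtain ⟨h1, h2, h3, h4, h5⟩ := main m 2 hm le_rfl
  have := hcon (m * 2) _ _ (by omega) h3 h4 h1 (by rw [h2]; exact hm)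
  omega

end Pool.Agent.Results.MP_106bf9_an.SharpFamily
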